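import Pool.Agent.TH451.MB.Stmt

/-! Weights for degrees into fixed sets, and the one-vertex weight sum. -/

namespace Pool.Agent.TH883.MB

open Pool.Agent.TH451.MB Finset

/-- the subsets of `R` that miss less than one fortieth of `R` -/
def good {V : Type} [DecidableEq V] (R : Finset V) : Finset (Finset V) :=
  R.powerset.filter (fun L => 40 * (R.card - L.card) < R.card)

lemma one_vertex {V : Type} [DecidableEq V] (R : Finset V) :
    ∑ L ∈ good R, (1/2 : ℝ) ^ L.card ≤ (0.61 : ℝ) ^ R.card := by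
  have h1 : ∀ L ∈ good R, (1/2 : ℝ) ^ L.card ≤
      (1.072 : ℝ) ^ R.card * ((1/2 : ℝ) ^ L.card * (1/16 : ℝ) ^ (R.card - L.card)) := by
    intro L hL
    have hk : 40 * (R.card - L.card) < R.card := (mem_filter.1 hL).2
    set k := R.card - L.card with hkdef
    have h2 : (16 : ℝ) ^ k ≤ (1.072 : ℝ) ^ R.card := by
      calc (16 : ℝ) ^ k ≤ ((1.072 : ℝ) ^ 40) ^ k := by
            apply pow_le_pow_left₀ (by norm_num)
            norm_num
        _ = (1.072 : ℝ) ^ (40 * k) := by rw [← pow_mul]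
        _ ≤ (1.072 : ℝ) ^ R.card := pow_le_pow_right₀ (by norm_num) hk.le
    have h3 : (16 : ℝ) ^ k * (1/16 : ℝ) ^ k = 1 := by
      rw [← mul_pow]; norm_num
    calc (1/2 : ℝ) ^ L.card = ((16 : ℝ) ^ k * (1/16 : ℝ) ^ k) * (1/2 : ℝ) ^ L.card := by
          rw [h3, one_mul]
      _ = (16 : ℝ) ^ k * ((1/2 : ℝ) ^ L.card * (1/16 : ℝ) ^ k) := by ring
      _ ≤ (1.072 : ℝ) ^ R.card * ((1/2 : ℝ) ^ L.card * (1/16 : ℝ) ^ k) := by
          apply mul_le_mul_of_nonneg_right h2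
          positivity
  calc ∑ L ∈ good R, (1/2 : ℝ) ^ L.card
      ≤ ∑ L ∈ good R, (1.072 : ℝ) ^ R.card *
          ((1/2 : ℝ) ^ L.card * (1/16 : ℝ) ^ (R.card - L.card)) := sum_le_sum h1
    _ ≤ ∑ L ∈ R.powerset, (1.072 : ℝ) ^ R.card *
          ((1/2 : ℝ) ^ L.card * (1/16 : ℝ) ^ (R.card - L.card)) := by
        apply sum_le_sum_of_subset_of_nonneg (filter_subset _ _)
        intros; positivity
    _ = (1.072 : ℝ) ^ R.card * (1/2 + 1/16 : ℝ) ^ R.card := by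
        rw [← mul_sum, sum_pow_mul_eq_add_pow]
    _ = (1.072 * (1/2 + 1/16) : ℝ) ^ R.card := by rw [mul_pow]
    _ ≤ (0.61 : ℝ) ^ R.card := by
        apply pow_le_pow_left₀ (by norm_num)
        norm_num

/-- the numerical estimate -/
lemma numeric {n s : ℕ} (hs : 20 * (Nat.log 2 n + 1) ≤ s) :
    (n : ℝ) ^ 2 * (0.61 : ℝ) ^ s ≤ 1 / 1000 := by
  set l := Nat.log 2 n + 1 with hl
  have hn : n < 2 ^ l := Nat.lt_pow_succ_log_self (by norm_num) n
  have hn' : (n : ℝ) ≤ 2 ^ l := by exact_mod_cast hn.le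
  have h1 : (n : ℝ) ^ 2 ≤ (4 : ℝ) ^ l := by
    calc (n : ℝ) ^ 2 ≤ ((2 : ℝ) ^ l) ^ 2 := pow_le_pow_left₀ (by positivity) hn' 2
      _ = (4 : ℝ) ^ l := by rw [← pow_mul, mul_comm, pow_mul]; norm_num
  have h2 : (0.61 : ℝ) ^ s ≤ (0.61 : ℝ) ^ (20 * l) :=
    pow_le_pow_of_le_one (by norm_num) (by norm_num) hs
  have h3 : (4 : ℝ) ^ l * (0.61 : ℝ) ^ (20 * l) ≤ 1 / 1000 := by
    rw [pow_mul, ← mul_pow]
    have h4 : (4 * (0.61 : ℝ) ^ 20) ≤ 1 / 1000 := by norm_num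
    have h5 : (0 : ℝ) ≤ 4 * (0.61 : ℝ) ^ 20 := by positivity
    calc (4 * (0.61 : ℝ) ^ 20) ^ l ≤ (4 * (0.61 : ℝ) ^ 20) ^ 1 :=
          pow_le_pow_of_le_one h5 (h4.trans (by norm_num)) (by omega)
      _ ≤ 1 / 1000 := by rw [pow_one]; exact h4
  calc (n : ℝ) ^ 2 * (0.61 : ℝ) ^ s ≤ (4 : ℝ) ^ l * (0.61 : ℝ) ^ (20 * l) := by
        apply mul_le_mul h1 h2 (by positivity) (by positivity)
    _ ≤ 1 / 1000 := h3

theorem fam_p1 : StFam1 := by
  classical
  refine ⟨20, 0, fun n _ s hs D hD hd => ?_⟩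
  set I : Finset (Σ _ : Fin n × Finset (Fin n), Finset (Fin n)) :=
    D.sigma (fun d => good d.2) with hI
  set L : (Σ _ : Fin n × Finset (Fin n), Finset (Fin n)) → Finset (Sym2 (Fin n)) :=
    fun i => i.2.image (fun r => s(i.1.1, r)) with hL
  have hcard : ∀ i, (L i).card = i.2.card := by
    intro i
    apply card_image_of_injective
    intro a b hab
    exact Sym2.congr_right.1 hab
  refine ⟨↥I, inferInstance, fun i => L i.1, ?_, ?_, ?_⟩
  · rintro ⟨i, hi⟩ e he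
    rw [hI, mem_sigma] at hi
    simp only [hL, mem_image] at he
    obtain ⟨r, hr, rfl⟩ := he
    refine ⟨i.1, hi.1, r, ?_, rfl⟩
    exact (mem_powerset.1 (mem_filter.1 hi.2).1) hr
  · have e1 : ∑ i : ↥I, (1/2 : ℝ) ^ (L i.1).card = ∑ i ∈ I, (1/2 : ℝ) ^ (L i).card :=
      sum_coe_sort I (fun i => (1/2 : ℝ) ^ (L i).card)
    rw [e1, hI, sum_sigma]
    simp only [hcard]
    calc ∑ d ∈ D, ∑ x ∈ good d.2, (1/2 : ℝ) ^ x.card
        ≤ ∑ d ∈ D, (0.61 : ℝ) ^ s := by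
          apply sum_le_sum
          intro d hdD
          refine (one_vertex d.2).trans ?_
          exact pow_le_pow_of_le_one (by norm_num) (by norm_num) (hd d hdD).1
      _ = D.card * (0.61 : ℝ) ^ s := by rw [sum_const, nsmul_eq_mul]
      _ ≤ (n : ℝ) ^ 2 * (0.61 : ℝ) ^ s := by
          apply mul_le_mul_of_nonneg_right _ (by positivity)
          exact_mod_cast hD
      _ ≤ 1 / 1000 := numeric hs
      _ ≤ 1 / 100 := by norm_num
  · intro G hG d hdD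
    by_contra hcon
    push Not at hcon
    have hsub : nb G d.1 d.2 ⊆ d.2 := fun z hz => (mem_nb.1 hz).1
    have hmem : (⟨d, d.2 \ nb G d.1 d.2⟩ : Σ _ : Fin n × Finset (Fin n), Finset (Fin n)) ∈ I := by
      rw [hI, mem_sigma]
      refine ⟨hdD, ?_⟩
      simp only [good, mem_filter, mem_powerset]
      refine ⟨sdiff_subset, ?_⟩
      have h1 := card_sdiff_add_card_eq_card hsub
      omega
    obtain ⟨e, he, heG⟩ := hG ⟨_, hmem⟩
    simp only [hL, mem_image] at he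
    obtain ⟨r, hr, rfl⟩ := he
    rw [SimpleGraph.mem_edgeSet] at heG
    rw [mem_sdiff] at hr
    exact hr.2 (mem_nb.2 ⟨hr.1, heG⟩)

end Pool.Agent.TH883.MB
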