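import Pool.Agent.TH883.MB.MB_FAM1

/-! Weights for expansion between sets of size at least `s`. -/

namespace Pool.Agent.TH883.MB

open Pool.Agent.TH451.MB Finset

/-- the edge set attached to `B` and `f` -/
def edges {V : Type} [DecidableEq V] (B : Finset V) (f : V → Finset V) : Finset (Sym2 V) :=
  B.biUnion (fun b => (f b).image (fun a => s(b, a)))

lemma card_edges {V : Type} [DecidableEq V] {A B : Finset V} (hAB : Disjoint A B)
    {f : V → Finset V} (hf : ∀ b ∈ B, f b ⊆ A) :
    (edges B f).card = ∑ b ∈ B, (f b).card := by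
  unfold edges
  rw [card_biUnion]
  · apply sum_congr rfl
    intro b _
    apply card_image_of_injective
    intro a c hac
    exact Sym2.congr_right.1 hac
  · intro b hb c hc hbc
    change Disjoint ((f b).image (fun a => s(b, a))) ((f c).image (fun a => s(c, a)))
    rw [disjoint_left]
    intro e he he'
    rw [mem_image] at he he'
    obtain ⟨a, ha, rfl⟩ := he
    obtain ⟨a', ha', h⟩ := he'
    rw [Sym2.eq_iff] at h
    rcases h with ⟨h1, _⟩ | ⟨h1, _⟩
    · exact hbc h1.symm
    · exact (disjoint_left.1 hAB (hf b hb ha)) (h1 ▸ hc)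

lemma exp_bound {n : ℕ} {x : ℝ} (hx : 0 ≤ x) (hn : (n : ℝ) * x ≤ 1 / 1000) :
    (1 + x) ^ n - 1 ≤ 1 / 500 := by
  have h1 : (1 + x) ^ n ≤ Real.exp (n * x) := by
    rw [Real.exp_nat_mul]
    apply pow_le_pow_left₀ (by linarith)
    linarith [Real.add_one_le_exp x]
  have h2 : Real.exp (n * x) ≤ Real.exp (1 / 1000) := Real.exp_le_exp.2 hn
  have h3 : Real.exp (1 / 1000 : ℝ) ≤ 1 + 1 / 500 := by
    have := Real.abs_exp_sub_one_le (x := (1 / 1000 : ℝ)) (by norm_num [abs_of_pos])
    rw [abs_of_pos (by norm_num : (0 : ℝ) < 1 / 1000)] at this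
    have h4 := (abs_le.1 this).2
    linarith
  linarith

/-- sum over nonempty subsets -/
lemma sum_nonempty {n : ℕ} {x : ℝ} :
    ∑ A ∈ (univ : Finset (Finset (Fin n))).filter (fun A => A.Nonempty), x ^ A.card =
      (1 + x) ^ n - 1 := by
  classical
  have h1 : ∑ A : Finset (Fin n), x ^ A.card = (1 + x) ^ n := by
    have h := Finset.sum_pow_mul_eq_add_pow x (1 : ℝ) (univ : Finset (Fin n))
    simp only [one_pow, mul_one, card_univ, Fintype.card_fin, powerset_univ] at h
    rw [h, add_comm]
  have h2 : (univ : Finset (Finset (Fin n))).filter (fun A => ¬ A.Nonempty) = {∅} := by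
    ext A
    simp [not_nonempty_iff_eq_empty]
  have h3 := sum_filter_add_sum_filter_not (univ : Finset (Finset (Fin n)))
    (fun A => A.Nonempty) (fun A => x ^ A.card)
  rw [h1, h2] at h3
  simp only [sum_singleton, card_empty, pow_zero] at h3
  linarith

theorem fam_p2 : StFam2 := by
  classical
  refine ⟨20, 0, fun n _ s hs H => ?_⟩
  have hs1 : 1 ≤ s := by omega
  set P : Finset (Finset (Fin n) × Finset (Fin n)) :=
    univ.filter (fun p => Disjoint p.1 p.2 ∧ Disjoint p.1 H ∧ Disjoint p.2 H ∧ s ≤ p.1.card ∧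
      p.2.card = s) with hP
  set t : Finset (Fin n) × Finset (Fin n) → Fin n → Finset (Finset (Fin n)) :=
    fun p b => if b ∈ p.2 then good p.1 else {∅} with ht
  set I : Finset (Σ _ : Finset (Fin n) × Finset (Fin n), Fin n → Finset (Fin n)) :=
    P.sigma (fun p => Fintype.piFinset (t p)) with hI
  set L : (Σ _ : Finset (Fin n) × Finset (Fin n), Fin n → Finset (Fin n)) →
    Finset (Sym2 (Fin n)) := fun i => edges i.1.2 i.2 with hL
  have hsubA : ∀ p : Finset (Fin n) × Finset (Fin n), ∀ f ∈ Fintype.piFinset (t p),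
      ∀ b ∈ p.2, f b ⊆ p.1 := by
    intro p f hf b hb
    have h1 := Fintype.mem_piFinset.1 hf b
    simp only [ht, if_pos hb, good, mem_filter, mem_powerset] at h1
    exact h1.1
  have hempty : ∀ p : Finset (Fin n) × Finset (Fin n), ∀ f ∈ Fintype.piFinset (t p),
      ∀ b, b ∉ p.2 → f b = ∅ := by
    intro p f hf b hb
    have h1 := Fintype.mem_piFinset.1 hf b
    simpa only [ht, if_neg hb, mem_singleton] using h1
  refine ⟨↥I, inferInstance, fun i => L i.1, ?_, ?_, ?_⟩
  · rintro ⟨i, hi⟩ e he
    rw [hI, mem_sigma] at hi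
    obtain ⟨hiP, hif⟩ := hi
    simp only [hP, mem_filter, mem_univ, true_and] at hiP
    simp only [hL, edges, mem_biUnion, mem_image] at he
    obtain ⟨b, hb, a, ha, rfl⟩ := he
    have haA := hsubA i.1 i.2 hif b hb ha
    refine ⟨b, a, ?_, ?_, ?_, rfl⟩
    · rintro rfl
      exact disjoint_left.1 hiP.1 haA hb
    · exact disjoint_left.1 hiP.2.2.1 hb
    · exact disjoint_left.1 hiP.2.1 haA
  · have e1 : ∑ i : ↥I, (1/2 : ℝ) ^ (L i.1).card = ∑ i ∈ I, (1/2 : ℝ) ^ (L i).card :=
      sum_coe_sort I (fun i => (1/2 : ℝ) ^ (L i).card)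
    rw [e1, hI, sum_sigma]
    have hp : ∀ p ∈ P, ∑ f ∈ Fintype.piFinset (t p), (1/2 : ℝ) ^ (L ⟨p, f⟩).card ≤
        ((0.61 : ℝ) ^ s) ^ p.1.card := by
      intro p hpP
      simp only [hP, mem_filter, mem_univ, true_and] at hpP
      have h1 : ∀ f ∈ Fintype.piFinset (t p), (1/2 : ℝ) ^ (L ⟨p, f⟩).card =
          ∏ b, (1/2 : ℝ) ^ (f b).card := by
        intro f hf
        simp only [hL]
        rw [card_edges hpP.1 (hsubA p f hf), ← prod_pow_eq_pow_sum]
        apply prod_subset (subset_univ _)
        intro b _ hb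
        rw [hempty p f hf b hb, card_empty, pow_zero]
      rw [sum_congr rfl h1, ← prod_univ_sum (t p) (fun _ x => (1/2 : ℝ) ^ x.card)]
      have h2 : ∏ b, ∑ x ∈ t p b, (1/2 : ℝ) ^ x.card =
          ∏ b ∈ p.2, ∑ x ∈ good p.1, (1/2 : ℝ) ^ x.card := by
        symm
        have : ∀ b ∈ p.2, ∑ x ∈ good p.1, (1/2 : ℝ) ^ x.card =
            ∑ x ∈ t p b, (1/2 : ℝ) ^ x.card := by
          intro b hb
          simp only [ht, if_pos hb]
        rw [prod_congr rfl this]
        apply prod_subset (subset_univ _)
        intro b _ hb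
        simp only [ht, if_neg hb, sum_singleton, card_empty, pow_zero]
      rw [h2, prod_const]
      calc (∑ x ∈ good p.1, (1/2 : ℝ) ^ x.card) ^ p.2.card
          ≤ ((0.61 : ℝ) ^ p.1.card) ^ p.2.card := by
            apply pow_le_pow_left₀ _ (one_vertex p.1)
            exact sum_nonneg (fun _ _ => by positivity)
        _ = ((0.61 : ℝ) ^ s) ^ p.1.card := by
            rw [hpP.2.2.2.2, ← pow_mul, ← pow_mul, mul_comm]
    set y : ℝ := (0.61 : ℝ) ^ s with hy
    have hy0 : 0 ≤ y := by positivity
    have hnum : (n : ℝ) ^ 2 * y ≤ 1 / 1000 := numeric hs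
    calc ∑ p ∈ P, ∑ f ∈ Fintype.piFinset (t p), (1/2 : ℝ) ^ (L ⟨p, f⟩).card
        ≤ ∑ p ∈ P, y ^ p.1.card := sum_le_sum hp
      _ ≤ ∑ p ∈ ((univ : Finset (Finset (Fin n))).filter (fun A => s ≤ A.card)) ×ˢ
            (powersetCard s (univ : Finset (Fin n))), y ^ p.1.card := by
          apply sum_le_sum_of_subset_of_nonneg
          · intro p hpP
            simp only [hP, mem_filter, mem_univ, true_and] at hpP
            simp only [mem_product, mem_filter, mem_univ, true_and, mem_powersetCard,
              subset_univ]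
            exact ⟨hpP.2.2.2.1, hpP.2.2.2.2⟩
          · intros; positivity
      _ = ∑ A ∈ (univ : Finset (Finset (Fin n))).filter (fun A => s ≤ A.card),
            (n.choose s : ℝ) * y ^ A.card := by
          rw [sum_product]
          apply sum_congr rfl
          intro A _
          have := sum_const (s := powersetCard s (univ : Finset (Fin n))) (y ^ A.card)
          rw [nsmul_eq_mul, card_powersetCard, card_univ, Fintype.card_fin] at this
          exact this
      _ ≤ ∑ A ∈ (univ : Finset (Finset (Fin n))).filter (fun A => s ≤ A.card),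
            ((n : ℝ) * y) ^ A.card := by
          apply sum_le_sum
          intro A hA
          have hA' : s ≤ A.card := (mem_filter.1 hA).2
          rw [mul_pow]
          apply mul_le_mul_of_nonneg_right _ (by positivity)
          have hAn : A.card ≤ n := by simpa using card_le_univ A
          have hn1 : 1 ≤ n := by omega
          calc (n.choose s : ℝ) ≤ (n : ℝ) ^ s := by
                have := Nat.choose_le_pow n s
                calc (n.choose s : ℝ) ≤ ((n ^ s : ℕ) : ℝ) := by exact_mod_cast this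
                  _ = (n : ℝ) ^ s := by push_cast; rfl
            _ ≤ (n : ℝ) ^ A.card := pow_le_pow_right₀ (by exact_mod_cast hn1) hA'
      _ ≤ ∑ A ∈ (univ : Finset (Finset (Fin n))).filter (fun A => A.Nonempty),
            ((n : ℝ) * y) ^ A.card := by
          apply sum_le_sum_of_subset_of_nonneg
          · intro A hA
            simp only [mem_filter, mem_univ, true_and] at hA ⊢
            exact card_pos.1 (by omega)
          · intros; positivity
      _ = (1 + (n : ℝ) * y) ^ n - 1 := sum_nonempty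
      _ ≤ 1 / 500 := by
          apply exp_bound (by positivity)
          calc (n : ℝ) * ((n : ℝ) * y) = (n : ℝ) ^ 2 * y := by ring
            _ ≤ 1 / 1000 := hnum
      _ ≤ 1 / 100 := by norm_num
  · intro G hG A B hAB hAH hBH hA hB
    by_contra hcon
    push Not at hcon
    obtain ⟨B', hB'B, hB's⟩ := exists_subset_card_eq hB
    set f : Fin n → Finset (Fin n) := fun b => if b ∈ B' then A \ nb G b A else ∅ with hf
    have hmem : (⟨(A, B'), f⟩ : Σ _ : Finset (Fin n) × Finset (Fin n),
        Fin n → Finset (Fin n)) ∈ I := by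
      rw [hI, mem_sigma]
      refine ⟨?_, ?_⟩
      · simp only [hP, mem_filter, mem_univ, true_and]
        exact ⟨disjoint_of_subset_right hB'B hAB, hAH, disjoint_of_subset_left hB'B hBH, hA,
          hB's⟩
      · rw [Fintype.mem_piFinset]
        intro b
        by_cases hb : b ∈ B'
        · simp only [ht, hf, if_pos hb, good, mem_filter, mem_powerset]
          refine ⟨sdiff_subset, ?_⟩
          have hsub : nb G b A ⊆ A := fun z hz => (mem_nb.1 hz).1
          have h1 := card_sdiff_add_card_eq_card hsub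
          have h2 := hcon b (hB'B hb)
          omega
        · simp only [ht, hf, if_neg hb, mem_singleton]
    obtain ⟨e, he, heG⟩ := hG ⟨_, hmem⟩
    simp only [hL, edges, mem_biUnion, mem_image] at he
    obtain ⟨b, hb, a, ha, rfl⟩ := he
    rw [SimpleGraph.mem_edgeSet] at heG
    simp only [hf, if_pos hb, mem_sdiff] at ha
    exact ha.2 (mem_nb.2 ⟨ha.1, heG⟩)

end Pool.Agent.TH883.MB
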