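import Pool.Agent.TH451.MB.Stmt

/-! Three small facts on trees. -/

namespace Pool.Agent.TH883.MB

open Pool.Agent.TH451.MB Finset

theorem sum_nb : StSumNb := by
  classical
  intro n T hT
  have h1 : ∀ t, (nb T t univ).card = T.degree t := by
    intro t
    rw [← SimpleGraph.card_neighborFinset_eq_degree]
    congr 1
    ext z
    rw [mem_nb, SimpleGraph.mem_neighborFinset]
    simp
  simp only [h1]
  rw [SimpleGraph.sum_degrees_eq_twice_card_edges]
  have h2 := hT.card_edgeFinset
  rw [Fintype.card_fin] at h2
  omega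

theorem leaf_structure : StLeafStructure := by
  classical
  intro n T hT hn t
  have hcl : ∀ (S : Finset (Fin n)), t ∈ S → (∀ x ∈ S, ∀ y, T.Adj x y → y ∈ S) →
      ∀ y, y ∈ S := by
    intro S htS hS y
    have hr : T.Reachable t y := hT.isConnected.preconnected t y
    rw [SimpleGraph.reachable_iff_reflTransGen] at hr
    induction hr with
    | refl => exact htS
    | tail _ hab ih => exact hS _ ih _ hab
  have huniv : ∀ (S : Finset (Fin n)), S.card ≤ 2 → ∃ y, y ∉ S := by
    intro S hS
    by_contra hcon
    push Not at hcon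
    have : S = univ := eq_univ_iff_forall.2 hcon
    rw [this, card_univ, Fintype.card_fin] at hS
    omega
  refine ⟨?_, ?_⟩
  · by_contra hcon
    have h0 : nb T t univ = ∅ := by
      rw [← card_eq_zero]; omega
    obtain ⟨y, hy⟩ := huniv {t} (by simp)
    apply hy
    apply hcl {t} (by simp)
    intro x hx z hz
    rw [mem_singleton] at hx
    subst hx
    have : z ∈ nb T x univ := mem_nb.2 ⟨mem_univ _, hz⟩
    rw [h0] at this
    exact absurd this (notMem_empty _)
  · intro h1
    obtain ⟨a, ha⟩ := card_eq_one.1 h1
    have hadj : ∀ b, T.Adj t b ↔ b = a := by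
      intro b
      have : b ∈ nb T t univ ↔ b = a := by rw [ha, mem_singleton]
      rw [mem_nb] at this
      simpa using this
    refine ⟨a, ?_, hadj⟩
    by_contra hcon
    have hta : T.Adj t a := (hadj a).2 rfl
    have htm : t ∈ nb T a univ := mem_nb.2 ⟨mem_univ _, hta.symm⟩
    have hone : ∀ z ∈ nb T a univ, z = t := by
      have : (nb T a univ).card ≤ 1 := by omega
      intro z hz
      exact card_le_one.1 this z hz t htm
    obtain ⟨y, hy⟩ := huniv {t, a} (card_le_two)
    apply hy
    apply hcl {t, a} (by simp)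
    intro x hx z hz
    rw [mem_insert, mem_singleton] at hx
    rcases hx with rfl | rfl
    · rw [(hadj z).1 hz]; simp
    · rw [hone z (mem_nb.2 ⟨mem_univ _, hz⟩)]; simp

theorem star_closed : StStarClosed := by
  classical
  intro τ _ _ T hT p Y hY t ht htp
  -- two paths from `t` to `p`
  have key : ∀ c ∈ Y, T.Adj t c → ∀ d ∈ Y, T.Adj t d → c = d := by
    intro c hc htc d hd htd
    have hpc := hY c hc
    have hpd := hY d hd
    let P1 : T.Path t p := ⟨.cons htc (.cons hpc.symm .nil), by
      simp [SimpleGraph.Walk.cons_isPath_iff, htp, hpc.ne.symm, htc.ne]⟩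
    let P2 : T.Path t p := ⟨.cons htd (.cons hpd.symm .nil), by
      simp [SimpleGraph.Walk.cons_isPath_iff, htp, hpd.ne.symm, htd.ne]⟩
    have h := hT.path_unique P1 P2
    have h2 : P1.1.support = P2.1.support := by rw [h]
    simp [P1, P2] at h2
    exact h2
  have key2 : ∀ c ∈ Y, T.Adj t c → T.Adj t p → False := by
    intro c hc htc htp'
    have hpc := hY c hc
    let P1 : T.Path t p := ⟨.cons htc (.cons hpc.symm .nil), by
      simp [SimpleGraph.Walk.cons_isPath_iff, htp, hpc.ne.symm, htc.ne]⟩
    let P2 : T.Path t p := ⟨.cons htp' .nil, by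
      simp [SimpleGraph.Walk.cons_isPath_iff, htp]⟩
    have h := hT.path_unique P1 P2
    have h2 : P1.1.length = P2.1.length := by rw [h]
    simp [P1, P2] at h2
  intro a ha b hb hta htb
  rw [mem_insert] at ha hb
  rcases ha with rfl | ha <;> rcases hb with rfl | hb
  · rfl
  · exact (key2 b hb htb hta).elim
  · exact (key2 a ha hta htb).elim
  · exact key a ha hta b hb htb

end Pool.Agent.TH883.MB
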